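import Pool.Agent.X153.Hol.Geo

set_option autoImplicit false
open MeasureTheory Filter Topology Set Metric
open scoped ENNReal

namespace Pool.Agent.X153.Hol
open Pool.Agent.H283R3.Newt

/-- the outer solid: a ball cut by two planes -/
def UU : Set E3 := {x : E3 | |x 0| < 1} ∩ ball 0 (11 / 10)

lemma UU_open : IsOpen UU := (isOpen_lt (by fun_prop) continuous_const).inter isOpen_ball

lemma UU_sub : UU ⊆ ball 0 (11 / 10) := inter_subset_right

lemma norm_le_of_coord {x y : E3} (h : ∀ i, |y i| ≤ |x i|) : ‖y‖ ≤ ‖x‖ := by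
  rw [EuclideanSpace.norm_eq, EuclideanSpace.norm_eq]
  apply Real.sqrt_le_sqrt
  apply Finset.sum_le_sum
  intro i _
  have := h i
  simp only [Real.norm_eq_abs]
  gcongr

lemma UU_unc : Unc UU := by
  rintro x ⟨hx1, hx2⟩ y hy
  refine ⟨(hy 0).trans_lt hx1, ?_⟩
  rw [mem_ball_zero_iff] at hx2 ⊢
  exact (norm_le_of_coord hy).trans_lt hx2

lemma ball_sub_UU : ball (0 : E3) 1 ⊆ UU := by
  intro x hx
  rw [mem_ball_zero_iff] at hx
  refine ⟨?_, ?_⟩
  · have := EuclideanSpace.norm_eq x
    have h2 : ‖x 0‖ ≤ ‖x‖ := PiLp.norm_apply_le x 0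
    exact lt_of_le_of_lt h2 hx
  · rw [mem_ball_zero_iff]; linarith

lemma outside_bound {ρ : E3 → ℝ} (hρ : Adm UU ρ) {x : E3} (hx : x ∉ UU) :
    V ρ x < 2 * Real.pi * (9 / 10) := by
  have h1 := (hρ.good UU_sub).V_abs_le (by norm_num) x
  refine (le_abs_self _).trans_lt (h1.trans_lt ?_)
  have hx1 : 1 ≤ ‖x‖ := by
    by_contra hc
    push Not at hc
    exact hx (ball_sub_UU (by rw [mem_ball_zero_iff]; exact hc))
  have hpi := Real.pi_pos
  unfold Nn
  split_ifs with h
  · have h3 : 2 * Real.pi * ((11 / 10) ^ 2 - ‖x‖ ^ 2 / 3) ≤ 2 * Real.pi * ((11 / 10) ^ 2 - 1 / 3) := by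
      have : 1 ≤ ‖x‖ ^ 2 := one_le_pow₀ hx1
      gcongr
    refine h3.trans_lt ?_
    have : (0:ℝ) < 2 * Real.pi := by positivity
    apply mul_lt_mul_of_pos_left _ this
    norm_num
  · push Not at h
    have hx0 : 0 < ‖x‖ := by linarith
    rw [div_lt_iff₀ hx0]
    nlinarith

lemma inside_bound : 2 * Real.pi * (9 / 10) < V (UU.indicator 1) 0 := by
  have hpi := Real.pi_pos
  have h1 : Nn 1 ‖(0 : E3)‖ = ∫ y, (ball (0:E3) 1).indicator (fun y => (dist (0 : E3) y)⁻¹) y := by
    rw [integral_indicator isOpen_ball.measurableSet, ball_pot one_pos, dist_zero_right]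
  have h2 : Nn 1 ‖(0 : E3)‖ = 2 * Real.pi := by
    unfold Nn
    rw [if_pos (by simp)]
    simp
  have hadm : Adm UU (UU.indicator 1) :=
    ⟨measurable_one.indicator UU_open.measurableSet, fun y => indicator_nonneg (fun _ _ => zero_le_one) _,
      fun y => le_rfl⟩
  have h3 : Nn 1 ‖(0 : E3)‖ ≤ V (UU.indicator 1) 0 := by
    rw [h1]
    unfold V
    apply integral_mono
    · exact (integrable_indicator_iff isOpen_ball.measurableSet).2 (kern_int one_pos 0 0)
    · exact (hadm.good UU_sub).int_kern (by norm_num) 0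
    · intro y
      simp only
      by_cases hy : y ∈ ball (0:E3) 1
      · rw [indicator_of_mem hy, indicator_of_mem (ball_sub_UU hy)]
        simp
      · rw [indicator_of_notMem hy]
        exact mul_nonneg (indicator_nonneg (fun _ _ => zero_le_one) _) (inv_nonneg.2 dist_nonneg)
  rw [h2] at h3
  linarith

/-- points of the flat face -/
lemma face_mem {b : ℝ} (hb : |b| ≤ 1 / 10) : !₂[(1:ℝ), b, 0] ∈ frontier UU := by
  rw [UU_open.frontier_eq]
  refine ⟨?_, fun hc => ?_⟩
  · rw [mem_closure_iff_seq_limit]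
    refine ⟨fun n : ℕ => (1 - 1 / ((n:ℝ) + 2)) • !₂[(1:ℝ), b, 0], fun n => ?_, ?_⟩
    · have hn : (0:ℝ) < (n:ℝ) + 2 := by positivity
      have h0 : (0:ℝ) ≤ n := Nat.cast_nonneg n
      set s : ℝ := 1 - 1 / ((n:ℝ) + 2) with hs
      have hs0 : 0 ≤ s := by
        rw [hs, sub_nonneg, div_le_one hn]; linarith
      have hs1 : s < 1 := by
        have : 0 < 1 / ((n:ℝ) + 2) := by positivity
        linarith
      refine ⟨?_, ?_⟩
      · show |(s • !₂[(1:ℝ), b, 0]) 0| < 1
        rw [PiLp.smul_apply, smul_eq_mul]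
        simp [abs_of_nonneg hs0, hs1]
      · rw [mem_ball_zero_iff, norm_smul, Real.norm_eq_abs, abs_of_nonneg hs0]
        have h1 : ‖!₂[(1:ℝ), b, 0]‖ < 11 / 10 := by
          rw [EuclideanSpace.norm_eq, Real.sqrt_lt' (by norm_num), Fin.sum_univ_three]
          simp only [Real.norm_eq_abs, sq_abs]
          have : b ^ 2 ≤ (1 / 10) ^ 2 := by rw [← sq_abs b]; gcongr
          simp
          nlinarith
        have h2 : 0 ≤ ‖!₂[(1:ℝ), b, 0]‖ := norm_nonneg _
        nlinarith
    · have h5 : Tendsto (fun n : ℕ => (n:ℝ) + 2) atTop atTop :=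
        tendsto_atTop_add_const_right _ _ tendsto_natCast_atTop_atTop
      have h6 : Tendsto (fun n : ℕ => 1 - 1 / ((n:ℝ) + 2)) atTop (𝓝 (1 - 0)) := by
        apply Tendsto.const_sub
        refine h5.inv_tendsto_atTop.congr fun n => ?_
        simp
      have h7 := h6.smul_const (!₂[(1:ℝ), b, 0] : E3)
      simpa using h7
  · have h1 : |(!₂[(1:ℝ), b, 0] : E3) 0| < 1 := hc.1
    simp at h1

/-- the outer surface is not an ellipsoid -/
lemma not_ellipsoid (f : E3 ≃ᵃ[ℝ] E3) : frontier UU ≠ f '' sphere (0 : E3) 1 := by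
  intro h
  obtain ⟨a, ha, hfa⟩ : (!₂[(1:ℝ), 1/10, 0] : E3) ∈ f '' sphere (0 : E3) 1 := by
    rw [← h]; exact face_mem (by rw [abs_of_pos] <;> norm_num)
  obtain ⟨b, hb, hfb⟩ : (!₂[(1:ℝ), -(1/10), 0] : E3) ∈ f '' sphere (0 : E3) 1 := by
    rw [← h]; exact face_mem (by rw [abs_neg, abs_of_pos] <;> norm_num)
  obtain ⟨c, hc, hfc⟩ : (!₂[(1:ℝ), 0, 0] : E3) ∈ f '' sphere (0 : E3) 1 := by
    rw [← h]; exact face_mem (by simp)
  have hmid : c = midpoint ℝ a b := by
    apply f.injective
    rw [AffineEquiv.map_midpoint, hfa, hfb, hfc, midpoint_eq_smul_add]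
    ext i
    fin_cases i
    · simp; norm_num
    · simp
    · simp
  have hne : a ≠ b := by
    rintro rfl
    rw [hfa] at hfb
    have := congrArg (fun x : E3 => x 1) hfb
    simp at this
    norm_num at this
  rw [mem_sphere_zero_iff_norm] at ha hb hc
  have h1 := parallelogram_law_with_norm ℝ a b
  have h2 : ‖a + b‖ = 2 := by
    have h3 : a + b = (2:ℝ) • c := by
      rw [hmid, midpoint_eq_smul_add, smul_smul]
      norm_num
    rw [h3, norm_smul, hc]
    norm_num
  have h3 : 0 < ‖a - b‖ := norm_pos_iff.2 (sub_ne_zero.2 hne)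
  rw [h2, ha, hb] at h1
  nlinarith

theorem main :
    ¬ (∀ (S S₁ U T₁ : Set (EuclideanSpace ℝ (Fin 3))),
    Nonempty (S ≃ₜ Metric.sphere (0 : EuclideanSpace ℝ (Fin 3)) 1) →
    Nonempty (S₁ ≃ₜ Metric.sphere (0 : EuclideanSpace ℝ (Fin 3)) 1) →
    IsOpen U → IsConnected U → Bornology.IsBounded U → frontier U = S →
    IsOpen T₁ → IsConnected T₁ → Bornology.IsBounded T₁ → frontier T₁ = S₁ →
    closure T₁ ⊆ U →
    (∃ c : ℝ, ∀ P ∈ T₁, ∫ M in U \ closure T₁, (dist P M)⁻¹ = c) →
    ∃ (f : EuclideanSpace ℝ (Fin 3) ≃ᵃ[ℝ] EuclideanSpace ℝ (Fin 3)) (k : ℝ),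
      0 < k ∧ k < 1 ∧
      S = f '' Metric.sphere (0 : EuclideanSpace ℝ (Fin 3)) 1 ∧
      S₁ = f '' Metric.sphere (0 : EuclideanSpace ℝ (Fin 3)) k) := by
  intro H
  have hpi := Real.pi_pos
  set l : ℝ := 2 * Real.pi * (9 / 10) with hl
  have hl0 : 0 < l := by positivity
  have hR : (0:ℝ) < 11 / 10 := by norm_num
  obtain ⟨ρ, hρ, h1, h2⟩ := exists_compl UU_open.measurableSet hR UU_sub hl0.le
  have hρg := hρ.good UU_sub
  have hcont := hρg.V_cont hR
  have hle := V_le_level hR UU_sub hl0 hρ h2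
  set Z : Set E3 := {x | l ≤ V ρ x} with hZ
  have hZcl : IsClosed Z := isClosed_le continuous_const hcont
  have hZU : Z ⊆ UU := by
    intro x hx
    by_contra hc
    have h3 := outside_bound hρ hc
    have h4 : l ≤ V ρ x := hx
    linarith
  have hZunc : Unc Z := by
    intro x hx y hy
    have h3 := V_anti hR UU_sub UU_unc hρ h1 hle hy
    have h4 : l ≤ V ρ x := hx
    exact h4.trans h3
  have hUb : Bornology.IsBounded UU := isBounded_ball.subset UU_sub
  have hZb : Bornology.IsBounded Z := hUb.subset hZU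
  have hnull := hZunc.null hZcl.measurableSet hZb
  set T : Set E3 := interior Z with hT
  have hTcl : closure T ⊆ Z := hZcl.closure_interior_subset
  have hTunc : Unc T := hZunc.interior'
  have hTb : Bornology.IsBounded T := hZb.subset interior_subset
  have hdz := dens_zero hR UU_sub hρ (T := T) isOpen_interior (l := l) (fun x hx =>
    le_antisymm (hle x) (interior_subset (s := Z) hx))
  have hae : ρ =ᵐ[volume] (UU \ closure T).indicator 1 := by
    filter_upwards [h1, hdz, measure_eq_zero_iff_ae_notMem.1 hnull] with x a1 a2 a3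
    by_cases hxZ : x ∈ Z
    · have hxT : x ∈ T := by
        by_contra hc
        exact a3 ⟨hxZ, hc⟩
      rw [a2 hxT, indicator_of_notMem]
      exact fun hc => hc.2 (subset_closure hxT)
    · by_cases hxU : x ∈ UU
      · have hlt : V ρ x < l := not_le.1 hxZ
        have hxm : x ∈ UU \ closure T := ⟨hxU, fun hc => hxZ (hTcl hc)⟩
        rw [a1 hxU hlt, indicator_of_mem hxm]
        rfl
      · rw [hρ.zero hxU, indicator_of_notMem fun hc => hxU hc.1]
  have hTne : T.Nonempty := by
    by_contra hne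
    rw [not_nonempty_iff_eq_empty] at hne
    have h3 : V ρ 0 = V (UU.indicator 1) 0 := by
      unfold V
      apply integral_congr_ae
      filter_upwards [hae] with x hx
      rw [hx, hne, closure_empty, sdiff_empty]
    have h4 := inside_bound
    have h5 := hle 0
    rw [h3] at h5
    linarith
  have hUne : UU.Nonempty := ⟨0, ball_sub_UU (mem_ball_self one_pos)⟩
  obtain ⟨f, k, -, -, hf, -⟩ := H (frontier UU) (frontier T) UU T
    (UU_unc.homeoSphere hUne UU_open hUb) (hTunc.homeoSphere hTne isOpen_interior hTb)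
    UU_open (UU_unc.connected hUne) hUb rfl isOpen_interior (hTunc.connected hTne) hTb rfl
    (hTcl.trans hZU) ⟨l, fun P hP => by
      have h3 : V ρ P = l := le_antisymm (hle P) (interior_subset (s := Z) hP)
      rw [← h3]
      unfold V
      rw [← integral_indicator (UU_open.measurableSet.diff isClosed_closure.measurableSet)]
      apply integral_congr_ae
      filter_upwards [hae] with x hx
      rw [hx]
      by_cases hxm : x ∈ UU \ closure T
      · rw [indicator_of_mem hxm, indicator_of_mem hxm]; simp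
      · rw [indicator_of_notMem hxm, indicator_of_notMem hxm]; simp⟩
  exact not_ellipsoid f hf

end Pool.Agent.X153.Hol
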