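import Pool.Agent.X153.Hol.Refl

set_option autoImplicit false
open MeasureTheory Filter Topology Set Metric
open scoped ENNReal Pointwise

namespace Pool.Agent.X153.Hol
open Pool.Agent.H283R3.Newt

lemma Unc.zero_mem {T : Set E3} (h : Unc T) (hne : T.Nonempty) : (0 : E3) ∈ T := by
  obtain ⟨x, hx⟩ := hne
  exact h x hx 0 fun i => by simp

lemma Unc.smul_mem {T : Set E3} (h : Unc T) {x : E3} (hx : x ∈ closure T) {s : ℝ} (hs0 : 0 ≤ s)
    (hs1 : s < 1) : s • x ∈ T := by
  obtain ⟨u, hu, hlim⟩ := mem_closure_iff_seq_limit.1 hx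
  have hi : ∀ i : Fin 3, ∀ᶠ n in atTop, |(s • x) i| ≤ |u n i| := by
    intro i
    by_cases hxi : x i = 0
    · refine Eventually.of_forall fun n => ?_
      simp [hxi]
    · have h1 : |(s • x) i| < |x i| := by
        rw [PiLp.smul_apply, smul_eq_mul, abs_mul, abs_of_nonneg hs0]
        have := abs_pos.2 hxi
        nlinarith
      have h2 : Tendsto (fun n => |u n i|) atTop (𝓝 |x i|) := by
        have h3 : Continuous fun y : E3 => |y i| := by fun_prop
        exact (h3.tendsto x).comp hlim
      filter_upwards [h2.eventually (lt_mem_nhds h1)] with n hn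
      exact hn.le
  obtain ⟨n, hn⟩ := (eventually_all.2 hi).exists
  exact h (u n) (hu n) _ hn

lemma Unc.connected {T : Set E3} (h : Unc T) (hne : T.Nonempty) : IsConnected T := by
  have h0 := h.zero_mem hne
  have hst : StarConvex ℝ (0 : E3) T := by
    rw [starConvex_zero_iff]
    intro x hx a ha0 ha1
    apply h x hx
    intro i
    rw [PiLp.smul_apply, smul_eq_mul, abs_mul, abs_of_nonneg ha0]
    have := abs_nonneg (x i)
    nlinarith
  exact (hst.isPathConnected h0).isConnected

/-- the frontier of a bounded open unconditional set is a topological sphere -/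
theorem Unc.homeoSphere {T : Set E3} (h : Unc T) (hne : T.Nonempty) (ho : IsOpen T)
    (hb : Bornology.IsBounded T) : Nonempty (frontier T ≃ₜ sphere (0 : E3) 1) := by
  have h0 := h.zero_mem hne
  have hn0 : ∀ x ∈ frontier T, x ≠ 0 := by
    rintro x hx rfl
    rw [ho.frontier_eq] at hx
    exact hx.2 h0
  have hcomp : IsCompact (frontier T) := by
    apply Metric.isCompact_of_isClosed_isBounded isClosed_frontier
    exact hb.closure.subset frontier_subset_closure
  haveI : CompactSpace (frontier T) := isCompact_iff_compactSpace.1 hcomp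
  set Φ : frontier T → sphere (0 : E3) 1 := fun x => ⟨‖(x : E3)‖⁻¹ • (x : E3), by
    rw [mem_sphere_zero_iff_norm, norm_smul, norm_inv, norm_norm]
    exact inv_mul_cancel₀ (norm_ne_zero_iff.2 (hn0 _ x.2))⟩ with hΦ
  have hc : Continuous Φ := by
    apply Continuous.subtype_mk
    have : ∀ x : frontier T, ‖(x : E3)‖ ≠ 0 := fun x => norm_ne_zero_iff.2 (hn0 _ x.2)
    fun_prop (disch := assumption)
  have hinj : Function.Injective Φ := by
    have key : ∀ x y : E3, x ∈ frontier T → y ∈ frontier T → ‖x‖⁻¹ • x = ‖y‖⁻¹ • y →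
        ¬ ‖x‖ < ‖y‖ := by
      intro x y hx hy hxy hlt
      have hx0 : ‖x‖ ≠ 0 := norm_ne_zero_iff.2 (hn0 _ hx)
      have hy0 : 0 < ‖y‖ := norm_pos_iff.2 (hn0 _ hy)
      have h1 : x = (‖x‖ / ‖y‖) • y := by
        calc x = ‖x‖ • (‖x‖⁻¹ • x) := by rw [smul_smul, mul_inv_cancel₀ hx0, one_smul]
          _ = _ := by rw [hxy, smul_smul, div_eq_mul_inv]
      have h2 : (‖x‖ / ‖y‖) • y ∈ T :=
        h.smul_mem (frontier_subset_closure hy) (by positivity) ((div_lt_one hy0).2 hlt)
      rw [← h1] at h2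
      rw [ho.frontier_eq] at hx
      exact hx.2 h2
    intro x y hxy
    have h1 : ‖(x : E3)‖⁻¹ • (x : E3) = ‖(y : E3)‖⁻¹ • (y : E3) := congrArg Subtype.val hxy
    have h2 : ‖(x : E3)‖ = ‖(y : E3)‖ :=
      le_antisymm (not_lt.1 (key y x y.2 x.2 h1.symm)) (not_lt.1 (key x y x.2 y.2 h1))
    rw [h2] at h1
    have h3 : ‖(y : E3)‖⁻¹ ≠ 0 := inv_ne_zero (norm_ne_zero_iff.2 (hn0 _ y.2))
    exact Subtype.ext (smul_right_injective _ h3 h1)
  have hsurj : Function.Surjective Φ := by
    intro v
    have hv : ‖(v : E3)‖ = 1 := by simp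
    obtain ⟨R, hR⟩ := hb.subset_ball (0 : E3)
    set S : Set E3 := (fun t : ℝ => t • (v : E3)) '' Icc 0 (|R| + 1) with hS
    have hSc : IsPreconnected S := isPreconnected_Icc.image _ (by fun_prop)
    have h1 : (S ∩ T).Nonempty := ⟨0, ⟨0, ⟨le_rfl, by positivity⟩, by simp⟩, h0⟩
    have h2 : (S ∩ Tᶜ).Nonempty := by
      refine ⟨(|R| + 1) • (v : E3), ⟨|R| + 1, ⟨by positivity, le_rfl⟩, rfl⟩, fun hc => ?_⟩
      have := hR hc
      rw [mem_ball_zero_iff, norm_smul, hv, mul_one, Real.norm_eq_abs,
        abs_of_nonneg (by positivity)] at this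
      linarith [le_abs_self R]
    obtain ⟨x, hxS, hxf⟩ : ∃ x, x ∈ S ∧ x ∈ frontier T := by
      by_contra hcon
      push Not at hcon
      have hfe : ∀ x ∈ S, x ∈ closure T → x ∈ T := by
        intro x hxS hxc
        by_contra hxT
        exact hcon x hxS (by rw [ho.frontier_eq]; exact ⟨hxc, hxT⟩)
      obtain ⟨x2, hx2S, hx2T⟩ := h2
      obtain ⟨z, -, hz1, hz2⟩ := hSc T (closure T)ᶜ ho isClosed_closure.isOpen_compl
        (fun x hxS => by
          by_cases hxc : x ∈ closure T
          · exact Or.inl (hfe x hxS hxc)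
          · exact Or.inr hxc)
        h1 ⟨x2, hx2S, fun hc => hx2T (hfe x2 hx2S hc)⟩
      exact hz2 (subset_closure hz1)
    obtain ⟨t, ht, htx⟩ := hxS
    have htx' : t • (v : E3) = x := htx
    have ht0 : 0 < t := by
      rcases ht.1.lt_or_eq with h3 | h3
      · exact h3
      · exfalso
        rw [← h3, zero_smul] at htx'
        exact hn0 x hxf htx'.symm
    refine ⟨⟨x, hxf⟩, ?_⟩
    apply Subtype.ext
    show ‖x‖⁻¹ • x = (v : E3)
    rw [← htx', norm_smul, hv, mul_one, Real.norm_eq_abs, abs_of_pos ht0, smul_smul,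
      inv_mul_cancel₀ ht0.ne', one_smul]
  exact ⟨hc.homeoOfEquivCompactToT2 (f := Equiv.ofBijective Φ ⟨hinj, hsurj⟩)⟩

lemma isOpen_box (a : Fin 3 → ℝ) : IsOpen {z : E3 | ∀ i, |z i| < a i} := by
  have : {z : E3 | ∀ i, |z i| < a i} = ⋂ i, {z : E3 | |z i| < a i} := by ext; simp
  rw [this]
  exact isOpen_iInter_of_finite fun i => isOpen_lt (by fun_prop) continuous_const

/-- the interior of an unconditional set is unconditional -/
lemma Unc.interior' {Z : Set E3} (h : Unc Z) : Unc (interior Z) := by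
  intro y hy z hz
  obtain ⟨δ, hδ, hb⟩ := Metric.isOpen_iff.1 isOpen_interior y hy
  set w : E3 := WithLp.toLp 2 fun i => if 0 ≤ y i then δ / 4 else -(δ / 4) with hw
  have hwi : ∀ i, w i = if 0 ≤ y i then δ / 4 else -(δ / 4) := fun i => rfl
  have hwa : ∀ i, |w i| = δ / 4 := by
    intro i
    rw [hwi]
    split_ifs
    · exact abs_of_pos (by positivity)
    · rw [abs_neg]; exact abs_of_pos (by positivity)
  have hwn : ‖w‖ < δ := by
    rw [EuclideanSpace.norm_eq, Real.sqrt_lt' hδ, Fin.sum_univ_three]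
    simp only [Real.norm_eq_abs, hwa]
    nlinarith
  have hyw : y + w ∈ Z := by
    apply interior_subset (s := Z)
    apply hb
    rw [mem_ball, dist_eq_norm]
    simpa using hwn
  have hya : ∀ i, |(y + w) i| = |y i| + δ / 4 := by
    intro i
    rw [PiLp.add_apply, hwi]
    split_ifs with h0
    · rw [abs_of_nonneg h0, abs_of_nonneg (by positivity)]
    · push Not at h0
      rw [abs_of_neg h0, abs_of_neg (by linarith)]
      ring
  rw [mem_interior]
  refine ⟨{x : E3 | ∀ i, |x i| < |(y + w) i|}, fun x hx => ?_, isOpen_box _, fun i => ?_⟩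
  · exact h _ hyw x fun i => (hx i).le
  · rw [hya]
    have := hz i
    linarith

/-- coordinate planes are null -/
lemma null_planes : volume {x : E3 | ∃ i, x i = 0} = 0 := by
  have : {x : E3 | ∃ i, x i = 0} = ⋃ i, {x : E3 | x i = 0} := by ext; simp
  rw [this, measure_iUnion_null_iff]
  intro i
  have h1 : {x : E3 | x i = 0} = (LinearMap.ker (EuclideanSpace.proj i : E3 →L[ℝ] ℝ).toLinearMap : Set E3) := by
    ext x
    simp
  rw [h1]
  apply Measure.addHaar_submodule
  intro htop
  have : (EuclideanSpace.single i (1:ℝ) : E3) ∈ LinearMap.ker (EuclideanSpace.proj i : E3 →L[ℝ] ℝ).toLinearMap := by rw [htop]; trivial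
  rw [LinearMap.mem_ker] at this
  simp at this

/-- the boundary of an unconditional bounded set is null -/
theorem Unc.null {Z : Set E3} (h : Unc Z) (hZm : MeasurableSet Z) (hb : Bornology.IsBounded Z) :
    volume (Z \ interior Z) = 0 := by
  have hfin : volume Z ≠ ⊤ := hb.measure_lt_top.ne
  have hfi : volume (interior Z) ≠ ⊤ := ((measure_mono interior_subset).trans_lt hb.measure_lt_top).ne
  have key : ∀ s : ℝ, 0 < s → s < 1 → ENNReal.ofReal (s ^ 3) * volume Z ≤ volume (interior Z) := by
    intro s hs0 hs1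
    have h1 : s • (Z \ {x : E3 | ∃ i, x i = 0}) ⊆ interior Z := by
      rintro _ ⟨x, ⟨hx, hx0⟩, rfl⟩
      simp only [mem_setOf_eq, not_exists] at hx0
      rw [mem_interior]
      refine ⟨{z : E3 | ∀ i, |z i| < |x i|}, fun z hz => h x hx z fun i => (hz i).le, isOpen_box _,
        fun i => ?_⟩
      show |(s • x) i| < |x i|
      rw [PiLp.smul_apply, smul_eq_mul, abs_mul, abs_of_pos hs0]
      have := abs_pos.2 (hx0 i)
      nlinarith
    have h2 := measure_mono (μ := volume) h1
    rw [Measure.addHaar_smul, measure_diff_null null_planes] at h2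
    simpa [abs_of_pos (pow_pos hs0 3)] using h2
  have hle : volume Z ≤ volume (interior Z) := by
    have h1 : Tendsto (fun n : ℕ => ENNReal.ofReal ((1 - 1 / ((n:ℝ) + 2)) ^ 3) * volume Z) atTop
        (𝓝 (ENNReal.ofReal ((1 - 0) ^ 3) * volume Z)) := by
      apply ENNReal.Tendsto.mul_const
      · apply ENNReal.tendsto_ofReal
        apply Tendsto.pow
        apply Tendsto.const_sub
        have h5 : Tendsto (fun n : ℕ => (n:ℝ) + 2) atTop atTop :=
          tendsto_atTop_add_const_right _ _ tendsto_natCast_atTop_atTop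
        have h6 := h5.inv_tendsto_atTop
        refine h6.congr fun n => ?_
        simp
      · right; exact hfin
    have h2 : ENNReal.ofReal ((1 - 0) ^ 3) * volume Z = volume Z := by simp
    rw [h2] at h1
    refine le_of_tendsto' h1 fun n => ?_
    have hn : (0:ℝ) < (n:ℝ) + 2 := by positivity
    apply key
    · rw [sub_pos, div_lt_one hn]
      have : (0:ℝ) ≤ n := Nat.cast_nonneg n
      linarith
    · have : 0 < 1 / ((n:ℝ) + 2) := by positivity
      linarith
  rw [measure_sdiff interior_subset isOpen_interior.measurableSet.nullMeasurableSet hfi]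
  exact tsub_eq_zero_of_le hle

/-- the density vanishes where the potential is locally constant -/
theorem dens_zero {U : Set E3} {R : ℝ} (hR : 0 < R) (hU : U ⊆ ball 0 R)
    {l : ℝ} {ρ : E3 → ℝ} (hρ : Adm U ρ) {T : Set E3} (hT : IsOpen T)
    (hconst : ∀ x ∈ T, V ρ x = l) : ∀ᵐ x : E3, x ∈ T → ρ x = 0 := by
  have hρg := hρ.good hU
  have hcont := hρg.V_cont hR
  have hnull : volume {x : E3 | x ∈ T ∧ ρ x ≠ 0} = 0 := by
    apply measure_null_of_locally_null
    rintro x ⟨hx, -⟩
    obtain ⟨r, hr0, hb⟩ := Metric.isOpen_iff.1 hT x hx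
    refine ⟨{x : E3 | x ∈ T ∧ ρ x ≠ 0} ∩ ball x r, ?_, ?_⟩
    · exact inter_mem_nhdsWithin _ (ball_mem_nhds x hr0)
    have h1 := hρg.mean_diff hR hr0 x
    have hv := vb_pos hr0
    have hvr : volume.real (ball x r) = vb r := by
      rw [measureReal_def, vol_ball hr0, ENNReal.toReal_ofReal hv.le]
    have h2 : ∫ z in ball x r, V ρ z = l * vb r := by
      rw [setIntegral_congr_fun measurableSet_ball (g := fun _ => l) (fun z hz => hconst z (hb hz)),
        setIntegral_const, hvr, smul_eq_mul, mul_comm]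
    rw [h2, hconst x hx, mul_div_assoc, div_self hv.ne', mul_one, sub_self] at h1
    have hint : Integrable (fun y => ρ y * kr r (dist x y)) := by
      unfold kr
      have e : (fun y => ρ y * ((dist x y)⁻¹ - Nn r (dist x y) / vb r)) =
          fun y => ρ y * (dist x y)⁻¹ - ρ y * (Nn r (dist x y) / vb r) := by
        ext y; ring
      rw [e]
      apply (hρg.int_kern hR x).sub
      have hm : Measurable fun y : E3 => Nn r (dist x y) := by
        unfold Nn
        apply Measurable.ite (measurableSet_lt (by fun_prop) (by fun_prop)) <;> fun_prop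
      apply (hρg.integrable hR).mul_bdd (c := 2 * Real.pi * r ^ 2 / vb r)
      · exact (hm.div_const _).aestronglyMeasurable
      · refine ae_of_all _ fun y => ?_
        rw [Real.norm_eq_abs, abs_div, abs_of_pos hv, abs_of_nonneg (Nn_nonneg hr0 dist_nonneg)]
        gcongr
        exact Nn_le hr0 dist_nonneg
    have hne : ∀ᵐ y : E3, y ≠ x := by simp [ae_iff]
    have hnn : 0 ≤ᵐ[volume] fun y => ρ y * kr r (dist x y) := by
      filter_upwards [hne] with y hy
      exact mul_nonneg (hρ.nonneg y) (kr_nonneg hr0 (dist_pos.2 hy.symm))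
    have h3 := (integral_eq_zero_iff_of_nonneg_ae hnn hint).1 h1.symm
    have h4 : ∀ᵐ y : E3, ¬ (y ∈ {x : E3 | x ∈ T ∧ ρ x ≠ 0} ∩ ball x r) := by
      filter_upwards [h3, hne] with y hy hyx hc
      obtain ⟨⟨-, hc1⟩, hc2⟩ := hc
      have h5 : 0 < kr r (dist x y) := kr_pos (dist_pos.2 hyx.symm) (by rw [dist_comm]; exact hc2)
      simp only [Pi.zero_apply, mul_eq_zero] at hy
      rcases hy with hy | hy
      · exact hc1 hy
      · exact h5.ne' hy
    exact measure_eq_zero_iff_ae_notMem.2 h4
  have := measure_eq_zero_iff_ae_notMem.1 hnull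
  filter_upwards [this] with x hx hxT
  by_contra hc
  exact hx ⟨hxT, hc⟩

end Pool.Agent.X153.Hol
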