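import Pool.Agent.X153.Hol.Weak

set_option autoImplicit false
open MeasureTheory Filter Topology Set Metric
open scoped ENNReal

namespace Pool.Agent.X153.Hol
open Pool.Agent.H283R3.Newt

/-- uniform bound of potentials -/
lemma V_bound {R : ℝ} (hR : 0 < R) {τ : E3 → ℝ} (h : Good R τ) (x : E3) :
    |V τ x| ≤ 2 * Real.pi * R ^ 2 :=
  (h.V_abs_le hR x).trans (Nn_le hR (norm_nonneg x))

/-- pointwise convergence of potentials -/
lemma pot_conv {R : ℝ} (hR : 0 < R) {u : ℕ → E3 → ℝ} {ρ : E3 → ℝ} (hu : ∀ k, Good R (u k))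
    (hρ : Good R ρ)
    (hw : ∀ h : E3 → ℝ, Measurable h → (∃ C, ∀ x, |h x| ≤ C) →
        Tendsto (fun k => ∫ x, u k x * h x) atTop (𝓝 (∫ x, ρ x * h x))) (x : E3) :
    Tendsto (fun k => V (u k) x) atTop (𝓝 (V ρ x)) := by
  rw [Metric.tendsto_atTop]
  intro δ hδ
  have hpi := Real.pi_pos
  obtain ⟨ε, hε, hεδ⟩ : ∃ ε : ℝ, 0 < ε ∧ 2 * Real.pi * ε ^ 2 < δ / 4 := by
    have h1 : Tendsto (fun n : ℕ => 2 * Real.pi * (1 / ((n:ℝ) + 1)) ^ 2) atTop (𝓝 0) := by
      have := ((tendsto_one_div_add_atTop_nhds_zero_nat (𝕜 := ℝ)).pow 2).const_mul (2 * Real.pi)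
      simpa using this
    obtain ⟨n, hn⟩ := (h1.eventually (gt_mem_nhds (by positivity : 0 < δ / 4))).exists
    exact ⟨1 / ((n:ℝ) + 1), by positivity, hn⟩
  have h2 := hw (fun y => (max (dist x y) ε)⁻¹) (by fun_prop) ⟨ε⁻¹, fun y => by
    rw [abs_of_nonneg (by positivity)]
    gcongr
    exact le_max_right _ _⟩
  rw [Metric.tendsto_atTop] at h2
  obtain ⟨N, hN⟩ := h2 (δ / 4) (by positivity)
  refine ⟨N, fun n hn => ?_⟩
  have a1 := Vt_close hR (hu n) hε x
  have a2 := Vt_close hR hρ hε x
  have a3 := hN n hn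
  rw [Real.dist_eq] at a3 ⊢
  have a3' : |Vt ε (u n) x - Vt ε ρ x| < δ / 4 := a3
  have e : V (u n) x - V ρ x = (V (u n) x - Vt ε (u n) x) + (Vt ε (u n) x - Vt ε ρ x)
      - (V ρ x - Vt ε ρ x) := by ring
  rw [e]
  calc _ ≤ |(V (u n) x - Vt ε (u n) x) + (Vt ε (u n) x - Vt ε ρ x)| + |V ρ x - Vt ε ρ x| :=
        abs_sub _ _
    _ ≤ |V (u n) x - Vt ε (u n) x| + |Vt ε (u n) x - Vt ε ρ x| + |V ρ x - Vt ε ρ x| := by
        gcongr; exact abs_add_le _ _
    _ < δ := by linarith

lemma Good.mul_V_int {R : ℝ} (hR : 0 < R) {f g : E3 → ℝ} (hf : Good R f) (hg : Good R g) :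
    Integrable (fun x => f x * V g x) := by
  refine (hf.integrable hR).mul_bdd (c := 2 * Real.pi * R ^ 2) (hg.V_cont hR).aestronglyMeasurable
    (ae_of_all _ fun x => V_bound hR hg x)

/-- convergence of the energies -/
lemma energy_conv {U : Set E3} {R : ℝ} (hUm : MeasurableSet U) (hR : 0 < R) (hU : U ⊆ ball 0 R)
    {u : ℕ → E3 → ℝ} {ρ : E3 → ℝ} (hu : ∀ k, Adm U (u k)) (hρ : Adm U ρ)
    (hw : ∀ h : E3 → ℝ, Measurable h → (∃ C, ∀ x, |h x| ≤ C) →
        Tendsto (fun k => ∫ x, u k x * h x) atTop (𝓝 (∫ x, ρ x * h x))) :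
    Tendsto (fun k => ∫ x, u k x * V (u k) x) atTop (𝓝 (∫ x, ρ x * V ρ x)) := by
  have hug := fun k => (hu k).good hU
  have hρg := hρ.good hU
  have h1 := hw (V ρ) (hρg.V_cont hR).measurable ⟨_, V_bound hR hρg⟩
  have hfin : volume U ≠ ⊤ := ((measure_mono hU).trans_lt measure_ball_lt_top).ne
  have hbI : Integrable (fun x => U.indicator (fun _ => 4 * Real.pi * R ^ 2) x) :=
    (integrable_indicator_iff hUm).2 (integrableOn_const hfin)
  have h2 : Tendsto (fun k => ∫ x, u k x * (V (u k) x - V ρ x)) atTop (𝓝 (∫ x : E3, (0:ℝ))) := by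
    apply tendsto_integral_of_dominated_convergence (fun x => U.indicator (fun _ => 4 * Real.pi * R ^ 2) x)
    · intro k
      exact ((hu k).meas.mul (((hug k).V_cont hR).measurable.sub (hρg.V_cont hR).measurable)).aestronglyMeasurable
    · exact hbI
    · intro k
      refine ae_of_all _ fun x => ?_
      by_cases hx : x ∈ U
      · rw [indicator_of_mem hx, Real.norm_eq_abs, abs_mul, abs_of_nonneg ((hu k).nonneg x)]
        have b1 := V_bound hR (hug k) x
        have b2 := V_bound hR hρg x
        have b3 : |V (u k) x - V ρ x| ≤ 4 * Real.pi * R ^ 2 := by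
          refine (abs_sub _ _).trans ?_
          linarith
        calc u k x * |V (u k) x - V ρ x| ≤ 1 * |V (u k) x - V ρ x| := by
              gcongr; exact (hu k).le_one x
          _ ≤ _ := by linarith
      · rw [indicator_of_notMem hx, (hu k).zero hx]; simp
    · refine ae_of_all _ fun x => ?_
      have h3 := pot_conv hR hug hρg hw x
      have h4 : Tendsto (fun k => V (u k) x - V ρ x) atTop (𝓝 0) := by
        simpa using h3.sub_const (V ρ x)
      apply squeeze_zero_norm _ (by simpa using h4.norm)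
      intro k
      rw [norm_mul, Real.norm_eq_abs (u k x), abs_of_nonneg ((hu k).nonneg x)]
      calc u k x * ‖V (u k) x - V ρ x‖ ≤ 1 * ‖V (u k) x - V ρ x‖ := by
            gcongr; exact (hu k).le_one x
        _ = _ := one_mul _
  rw [integral_zero] at h2
  have h3 := h2.add h1
  rw [zero_add] at h3
  refine h3.congr fun k => ?_
  rw [← integral_add]
  · congr 1
    ext x
    ring
  · have e : (fun x => u k x * (V (u k) x - V ρ x)) = fun x => u k x * V (u k) x - u k x * V ρ x := by
      ext x; ring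
    rw [e]
    exact (Good.mul_V_int hR (hug k) (hug k)).sub (Good.mul_V_int hR (hug k) hρg)
  · exact Good.mul_V_int hR (hug k) hρg

/-- symmetry -/
lemma energy_symm {R : ℝ} (hR : 0 < R) {f g : E3 → ℝ} (hf : Good R f) (hg : Good R g) :
    ∫ x, f x * V g x = ∫ x, g x * V f x := by
  unfold V
  simp_rw [← integral_const_mul]
  rw [integral_integral_swap]
  · congr 1
    ext y
    congr 1
    ext x
    rw [dist_comm]
    ring
  · have hfm := hf.meas
    have hgm := hg.meas
    rw [integrable_prod_iff]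
    · constructor
      · refine ae_of_all _ fun x => ?_
        show Integrable (fun y => f x * (g y * (dist x y)⁻¹)) _
        exact (hg.int_kern hR x).const_mul _
      · have habs : Good R (fun y => |g y|) := ⟨hgm.abs, fun y => by rw [abs_abs]; exact hg.bd y⟩
        have h1 : ∀ x : E3, ∫ y, ‖f x * (g y * (dist x y)⁻¹)‖ = |f x| * V (fun y => |g y|) x := by
          intro x
          unfold V
          rw [← integral_const_mul]
          congr 1
          ext y
          rw [Real.norm_eq_abs, abs_mul, abs_mul, abs_of_nonneg (inv_nonneg.2 dist_nonneg : 0 ≤ (dist x y)⁻¹)]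
        show Integrable (fun x => ∫ y, ‖f x * (g y * (dist x y)⁻¹)‖)
        simp_rw [h1]
        have habs' : Good R (fun y => |f y|) := ⟨hfm.abs, fun y => by rw [abs_abs]; exact hf.bd y⟩
        exact Good.mul_V_int hR habs' habs
    · fun_prop

lemma V_add_smul {R : ℝ} (hR : 0 < R) {f g : E3 → ℝ} (hf : Good R f) (hg : Good R g) (a b : ℝ)
    (x : E3) : V (fun y => a * f y + b * g y) x = a * V f x + b * V g x := by
  unfold V
  rw [← integral_const_mul, ← integral_const_mul, ← integral_add ((hf.int_kern hR x).const_mul _)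
    ((hg.int_kern hR x).const_mul _)]
  congr 1
  ext y
  ring

/-- the energy functional -/
noncomputable def J (l : ℝ) (ρ : E3 → ℝ) : ℝ := 1 / 2 * (∫ x, ρ x * V ρ x) - l * ∫ x, ρ x

lemma V_nonneg {U : Set E3} {ρ : E3 → ℝ} (h : Adm U ρ) (x : E3) : 0 ≤ V ρ x :=
  integral_nonneg fun y => mul_nonneg (h.nonneg y) (inv_nonneg.2 dist_nonneg)

/-- existence of a minimiser -/
theorem exists_min {U : Set E3} {R : ℝ} (hUm : MeasurableSet U) (hR : 0 < R) (hU : U ⊆ ball 0 R)
    {l : ℝ} (hl : 0 ≤ l) : ∃ ρ, Adm U ρ ∧ ∀ σ, Adm U σ → J l ρ ≤ J l σ := by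
  have hfin : volume U ≠ ⊤ := ((measure_mono hU).trans_lt measure_ball_lt_top).ne
  set S : Set ℝ := J l '' {σ | Adm U σ} with hS
  have hz : Adm U (fun _ => 0) := ⟨measurable_const, fun _ => le_rfl,
    fun y => indicator_nonneg (fun _ _ => zero_le_one) _⟩
  have hne : S.Nonempty := ⟨_, _, hz, rfl⟩
  have hUI : Integrable (fun x => U.indicator (fun _ => (1:ℝ)) x) :=
    (integrable_indicator_iff hUm).2 (integrableOn_const hfin)
  have hbdd : BddBelow S := by
    refine ⟨-(l * ∫ x, U.indicator (fun _ => (1:ℝ)) x), ?_⟩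
    rintro _ ⟨σ, hσ, rfl⟩
    have h1 : 0 ≤ ∫ x, σ x * V σ x := integral_nonneg fun x =>
      mul_nonneg (hσ.nonneg x) (V_nonneg hσ x)
    have h2 : ∫ x, σ x ≤ ∫ x, U.indicator (fun _ => (1:ℝ)) x :=
      integral_mono ((hσ.good hU).integrable hR) hUI hσ.le
    have h3 := mul_le_mul_of_nonneg_left h2 hl
    unfold J
    linarith
  obtain ⟨v, -, hv, hvS⟩ := exists_seq_tendsto_sInf hne hbdd
  choose u hu huv using hvS
  obtain ⟨σ, hσ, ρ, hρ, hw⟩ := exists_subseq hUm hU hu
  refine ⟨ρ, hρ, ?_⟩
  have h1 := energy_conv hUm hR hU (fun k => hu (σ k)) hρ hw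
  have h2 : Tendsto (fun k => ∫ x, u (σ k) x) atTop (𝓝 (∫ x, ρ x)) := by
    have := hw (fun _ => 1) measurable_const ⟨1, by simp⟩
    simpa using this
  have h3 : Tendsto (fun k => J l (u (σ k))) atTop (𝓝 (J l ρ)) :=
    (h1.const_mul (1/2)).sub (h2.const_mul l)
  have h4 : Tendsto (fun k => J l (u (σ k))) atTop (𝓝 (sInf S)) := by
    have := hv.comp hσ.tendsto_atTop
    refine this.congr fun k => ?_
    show v (σ k) = _
    rw [huv]
  have h5 := tendsto_nhds_unique h3 h4
  intro τ hτ
  rw [h5]
  exact csInf_le hbdd ⟨τ, hτ, rfl⟩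

/-- the complementarity problem -/
theorem exists_compl {U : Set E3} {R : ℝ} (hUm : MeasurableSet U) (hR : 0 < R) (hU : U ⊆ ball 0 R)
    {l : ℝ} (hl : 0 ≤ l) : ∃ ρ, Adm U ρ ∧ (∀ᵐ x : E3, x ∈ U → V ρ x < l → ρ x = 1) ∧
      (∀ᵐ x : E3, l < V ρ x → ρ x = 0) := by
  obtain ⟨ρ, hρ, hmin⟩ := exists_min hUm hR hU hl
  have hρg := hρ.good hU
  have hVm : Measurable (V ρ) := (hρg.V_cont hR).measurable
  -- the variational inequality
  have hvar : ∀ σ, Adm U σ → 0 ≤ ∫ x, (σ x - ρ x) * (V ρ x - l) := by
    intro σ hσ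
    have hσg := hσ.good hU
    set A : ℝ := ∫ x, (σ x - ρ x) * (V ρ x - l) with hA
    set c11 := ∫ x, ρ x * V ρ x with hc11
    set c12 := ∫ x, σ x * V ρ x with hc12
    set c22 := ∫ x, σ x * V σ x with hc22
    set m1 := ∫ x, ρ x with hm1
    set m2 := ∫ x, σ x with hm2
    have hc21 : ∫ x, ρ x * V σ x = c12 := energy_symm hR hρg hσg
    have hA' : A = (c12 - l * m2) - (c11 - l * m1) := by
      rw [hA, hc12, hc11, hm1, hm2, ← integral_const_mul, ← integral_const_mul, ← integral_sub,
        ← integral_sub, ← integral_sub]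
      · congr 1
        ext x
        ring
      · exact (Good.mul_V_int hR hσg hρg).sub ((hσg.integrable hR).const_mul _)
      · exact (Good.mul_V_int hR hρg hρg).sub ((hρg.integrable hR).const_mul _)
      · exact Good.mul_V_int hR hρg hρg
      · exact (hρg.integrable hR).const_mul _
      · exact Good.mul_V_int hR hσg hρg
      · exact (hσg.integrable hR).const_mul _
    have hJ : ∀ t : ℝ, 0 ≤ t → t ≤ 1 → 0 ≤ t * A + t ^ 2 / 2 * (c22 - 2 * c12 + c11) := by
      intro t h0 h1
      have hadm : Adm U (fun y => (1 - t) * ρ y + t * σ y) := by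
        refine ⟨by have := hρ.meas; have := hσ.meas; fun_prop, fun y => ?_, fun y => ?_⟩
        · exact add_nonneg (mul_nonneg (by linarith) (hρ.nonneg y)) (mul_nonneg h0 (hσ.nonneg y))
        · have e1 := mul_le_mul_of_nonneg_left (hρ.le y) (by linarith : 0 ≤ 1 - t)
          have e2 := mul_le_mul_of_nonneg_left (hσ.le y) h0
          linarith
      have h2 := hmin _ hadm
      have h3 : J l (fun y => (1 - t) * ρ y + t * σ y) = 1 / 2 * ((1 - t) ^ 2 * c11 +
          2 * t * (1 - t) * c12 + t ^ 2 * c22) - l * ((1 - t) * m1 + t * m2) := by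
        unfold J
        congr 1
        · congr 1
          have e1 : ∀ x, ((1 - t) * ρ x + t * σ x) * V (fun y => (1 - t) * ρ y + t * σ y) x =
              (1 - t) ^ 2 * (ρ x * V ρ x) + (t * (1 - t) * (ρ x * V σ x) +
                (t * (1 - t) * (σ x * V ρ x) + t ^ 2 * (σ x * V σ x))) := by
            intro x
            rw [V_add_smul hR hρg hσg]
            ring
          simp_rw [e1]
          rw [integral_add, integral_add, integral_add, integral_const_mul, integral_const_mul,
            integral_const_mul, integral_const_mul, hc21, ← hc11, ← hc12, ← hc22]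
          · ring
          · exact (Good.mul_V_int hR hσg hρg).const_mul _
          · exact (Good.mul_V_int hR hσg hσg).const_mul _
          · exact (Good.mul_V_int hR hρg hσg).const_mul _
          · exact ((Good.mul_V_int hR hσg hρg).const_mul _).add ((Good.mul_V_int hR hσg hσg).const_mul _)
          · exact (Good.mul_V_int hR hρg hρg).const_mul _
          · exact ((Good.mul_V_int hR hρg hσg).const_mul _).add
              (((Good.mul_V_int hR hσg hρg).const_mul _).add ((Good.mul_V_int hR hσg hσg).const_mul _))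
        · congr 1
          rw [integral_add ((hρg.integrable hR).const_mul _) ((hσg.integrable hR).const_mul _),
            integral_const_mul, integral_const_mul]
      rw [h3] at h2
      have h4 : J l ρ = 1 / 2 * c11 - l * m1 := rfl
      rw [h4] at h2
      rw [hA']
      nlinarith
    by_contra hneg
    push Not at hneg
    set C := c22 - 2 * c12 + c11 with hC
    -- choose t small
    obtain ⟨t, ht0, ht1, htC⟩ : ∃ t : ℝ, 0 < t ∧ t ≤ 1 ∧ t * |C| < -A := by
      refine ⟨min 1 (-A / (2 * (|C| + 1))), ?_, min_le_left _ _, ?_⟩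
      · apply lt_min one_pos
        apply div_pos (by linarith)
        positivity
      · have h1 : min 1 (-A / (2 * (|C| + 1))) ≤ -A / (2 * (|C| + 1)) := min_le_right _ _
        have h2 : (0:ℝ) < 2 * (|C| + 1) := by positivity
        have h3 : min 1 (-A / (2 * (|C| + 1))) * |C| ≤ -A / (2 * (|C| + 1)) * |C| :=
          mul_le_mul_of_nonneg_right h1 (abs_nonneg C)
        refine h3.trans_lt ?_
        rw [div_mul_eq_mul_div, div_lt_iff₀ h2]
        nlinarith [abs_nonneg C]
    have h5 := hJ t ht0.le ht1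
    have h6 : t ^ 2 / 2 * C ≤ t * (t * |C|) := by
      have := le_abs_self C
      have h7 : 0 ≤ t ^ 2 := by positivity
      nlinarith [abs_nonneg C, mul_nonneg h7 (abs_nonneg C)]
    nlinarith
  -- the test density
  classical
  set σ : E3 → ℝ := fun x => if V ρ x < l then U.indicator 1 x else if l < V ρ x then 0 else ρ x
    with hσdef
  have hUi : Measurable (U.indicator (1 : E3 → ℝ)) := measurable_one.indicator hUm
  have hσ : Adm U σ := by
    refine ⟨?_, fun y => ?_, fun y => ?_⟩
    · exact Measurable.ite (measurableSet_lt hVm measurable_const) hUi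
        (Measurable.ite (measurableSet_lt measurable_const hVm) measurable_const hρ.meas)
    · simp only [hσdef]
      split_ifs
      · exact indicator_nonneg (fun _ _ => zero_le_one) _
      · exact le_rfl
      · exact hρ.nonneg y
    · simp only [hσdef]
      split_ifs
      · exact le_rfl
      · exact indicator_nonneg (fun _ _ => zero_le_one) _
      · exact hρ.le y
  have hσg := hσ.good hU
  have h1 := hvar σ hσ
  have h2 : ∀ x, 0 ≤ -((σ x - ρ x) * (V ρ x - l)) := by
    intro x
    simp only [hσdef]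
    split_ifs with h3 h4
    · have := hρ.le x
      nlinarith
    · have := hρ.nonneg x
      nlinarith
    · simp
  have hint : Integrable (fun x => -((σ x - ρ x) * (V ρ x - l))) := by
    apply Integrable.neg
    apply ((hσg.integrable hR).sub (hρg.integrable hR)).mul_bdd (c := 2 * Real.pi * R ^ 2 + |l|)
    · exact (hVm.sub_const l).aestronglyMeasurable
    · refine ae_of_all _ fun x => ?_
      have := V_bound hR hρg x
      rw [Real.norm_eq_abs]
      refine (abs_sub _ _).trans ?_
      linarith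
  have h3 : ∫ x, -((σ x - ρ x) * (V ρ x - l)) = 0 := by
    apply le_antisymm
    · rw [integral_neg]; linarith
    · exact integral_nonneg h2
  rw [integral_eq_zero_iff_of_nonneg h2 hint] at h3
  refine ⟨ρ, hρ, ?_, ?_⟩
  · filter_upwards [h3] with x hx hxU hxl
    simp only [Pi.zero_apply, neg_eq_zero, mul_eq_zero] at hx
    rcases hx with hx | hx
    · simp only [hσdef, if_pos hxl, indicator_of_mem hxU, Pi.one_apply] at hx
      linarith
    · linarith
  · filter_upwards [h3] with x hx hxl
    simp only [Pi.zero_apply, neg_eq_zero, mul_eq_zero] at hx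
    rcases hx with hx | hx
    · simp only [hσdef, if_neg (not_lt.2 hxl.le), if_pos hxl] at hx
      linarith
    · linarith

end Pool.Agent.X153.Hol
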