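import Pool.Agent.X153.Hol.Min

set_option autoImplicit false
open MeasureTheory Filter Topology Set Metric
open scoped ENNReal

namespace Pool.Agent.X153.Hol
open Pool.Agent.H283R3.Newt

/-- Maximum principle. -/
theorem max_principle {R : ℝ} (hR : 0 < R) {τ : E3 → ℝ} (h : Good R τ) {H : Set E3}
    (hH : IsClosed H) (hfr : ∀ x ∈ frontier H, V τ x ≤ 0)
    (hloc : ∀ x ∈ interior H, 0 < V τ x → ∃ r > 0, ∀ᵐ y : E3, y ∈ ball x r → τ y ≤ 0) :
    ∀ x ∈ H, V τ x ≤ 0 := by
  by_contra hcon
  push Not at hcon
  obtain ⟨x1, hx1, hpos⟩ := hcon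
  have hcont := h.V_cont hR
  -- the maximum
  have hcomp : IsCompact ({x | V τ x1 ≤ V τ x} ∩ H) := (h.compact_ge hR hpos).inter_right hH
  obtain ⟨x0, hx0, hmax⟩ := hcomp.exists_isMaxOn ⟨x1, (le_refl (V τ x1) : V τ x1 ≤ V τ x1), hx1⟩ hcont.continuousOn
  set M := V τ x0 with hM
  have hM0 : 0 < M := lt_of_lt_of_le hpos hx0.1
  have hmax' : ∀ x ∈ H, V τ x ≤ M := by
    intro x hx
    rcases le_total (V τ x1) (V τ x) with h1 | h1
    · exact hmax ⟨h1, hx⟩
    · exact h1.trans hx0.1
  set K : Set E3 := {x | M ≤ V τ x} ∩ H with hK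
  have hKint : K ⊆ interior H := by
    intro x hx
    by_contra hc
    have : x ∈ frontier H := by
      rw [hH.frontier_eq]
      exact ⟨hx.2, hc⟩
    have h2 := hfr x this
    have h3 : M ≤ V τ x := hx.1
    linarith
  have hKcl : IsClosed K := (isClosed_le continuous_const hcont).inter hH
  have hKop : IsOpen K := by
    rw [isOpen_iff_mem_nhds]
    intro x hx
    have hxM : V τ x = M := le_antisymm (hmax' x hx.2) hx.1
    obtain ⟨r1, hr1, hae⟩ := hloc x (hKint hx) (by rw [hxM]; exact hM0)
    obtain ⟨r2, hr2, hb2⟩ := Metric.isOpen_iff.1 isOpen_interior x (hKint hx)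
    set r := min r1 r2 with hr
    have hr0 : 0 < r := lt_min hr1 hr2
    have h1 := h.mean_diff hR hr0 x
    have h2 : ∫ y, τ y * kr r (dist x y) ≤ 0 := by
      apply integral_nonpos_of_ae
      have hne : ∀ᵐ y : E3, y ≠ x := by simp [ae_iff]
      filter_upwards [hae, hne] with y hy hyx
      by_cases hyr : dist x y < r
      · have h3 : y ∈ ball x r1 := by
          rw [mem_ball, dist_comm]; exact hyr.trans_le (min_le_left _ _)
        exact mul_nonpos_of_nonpos_of_nonneg (hy h3) (kr_nonneg hr0 (dist_pos.2 hyx.symm))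
      · rw [kr_zero hr0 (not_lt.1 hyr)]; simp
    have hv := vb_pos hr0
    have h3 : M * vb r ≤ ∫ z in ball x r, V τ z := by
      rw [hxM] at h1
      have : M ≤ (∫ z in ball x r, V τ z) / vb r := by linarith
      rwa [le_div_iff₀ hv] at this
    -- so V τ = M on the ball
    have hsub : ball x r ⊆ H := (ball_subset_ball (min_le_right _ _)).trans
      (hb2.trans interior_subset)
    have hvr : volume.real (ball x r) = vb r := by
      rw [measureReal_def, vol_ball hr0, ENNReal.toReal_ofReal hv.le]
    have hfin : volume (ball x r) ≠ ⊤ := measure_ball_lt_top.ne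
    have hVi : IntegrableOn (V τ) (ball x r) := by
      refine Measure.integrableOn_of_bounded (M := 2 * Real.pi * R ^ 2) hfin hcont.aestronglyMeasurable ?_
      exact ae_of_all _ fun y => V_bound hR h y
    have hMi : Integrable (fun _ : E3 => M) (volume.restrict (ball x r)) := integrableOn_const hfin
    have h4 : ∫ z in ball x r, (M - V τ z) = 0 := by
      apply le_antisymm
      · rw [integral_sub hMi hVi, setIntegral_const, hvr, smul_eq_mul]
        linarith [mul_comm M (vb r)]
      · apply setIntegral_nonneg measurableSet_ball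
        intro z hz
        linarith [hmax' z (hsub hz)]
    rw [setIntegral_eq_zero_iff_of_nonneg_ae] at h4
    · have h5 : EqOn (fun z => M - V τ z) (fun _ => 0) (ball x r) :=
        MeasureTheory.Measure.eqOn_open_of_ae_eq h4 isOpen_ball
          (continuous_const.sub hcont).continuousOn continuousOn_const
      rw [_root_.mem_nhds_iff]
      refine ⟨ball x r, fun z hz => ⟨?_, hsub hz⟩, isOpen_ball, mem_ball_self hr0⟩
      have := h5 hz
      simp only at this
      show M ≤ V τ z
      linarith
    · rw [EventuallyLE, ae_restrict_iff' measurableSet_ball]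
      refine ae_of_all _ fun z hz => ?_
      simp only [Pi.zero_apply]
      linarith [hmax' z (hsub hz)]
    · exact hMi.sub hVi
  have huniv : K = univ := by
    have : IsClopen K := ⟨hKcl, hKop⟩
    rcases isClopen_iff.1 this with h1 | h1
    · exfalso
      have : x0 ∈ K := ⟨(le_refl M : M ≤ V τ x0), hx0.2⟩
      rw [h1] at this
      exact this
    · exact h1
  obtain ⟨ρ, hρ⟩ := h.V_small hR hM0
  obtain ⟨z, hz⟩ : ∃ z : E3, ‖z‖ = |ρ| := ⟨EuclideanSpace.single 0 |ρ|, by simp⟩
  have h6 := hρ z (by rw [hz]; exact le_abs_self ρ)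
  have h7 : z ∈ K := by rw [huniv]; trivial
  have h8 : M ≤ V τ z := h7.1
  linarith [le_abs_self (V τ z)]

/-- sign change of one coordinate -/
noncomputable def flp (i : Fin 3) : E3 ≃ₗᵢ[ℝ] E3 :=
  LinearIsometryEquiv.piLpCongrRight 2
    (fun j => if j = i then LinearIsometryEquiv.neg ℝ else LinearIsometryEquiv.refl ℝ ℝ)

lemma flp_apply (i : Fin 3) (x : E3) (j : Fin 3) : flp i x j = if j = i then - x j else x j := by
  unfold flp
  rw [LinearIsometryEquiv.piLpCongrRight_apply]
  show (if j = i then LinearIsometryEquiv.neg ℝ else LinearIsometryEquiv.refl ℝ ℝ) (x j) = _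
  split_ifs <;> simp

/-- reflection in a coordinate plane -/
noncomputable def rf (i : Fin 3) (c : ℝ) (x : E3) : E3 := flp i x + EuclideanSpace.single i c

lemma rf_apply (i : Fin 3) (c : ℝ) (x : E3) (j : Fin 3) :
    rf i c x j = if j = i then c - x j else x j := by
  unfold rf
  rw [PiLp.add_apply, flp_apply, EuclideanSpace.single_apply]
  split_ifs with h
  · ring
  · ring

lemma rf_mp (i : Fin 3) (c : ℝ) : MeasurePreserving (rf i c) volume volume :=
  (measurePreserving_add_right (volume : Measure E3) _).comp (flp i).measurePreserving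

lemma rf_cont (i : Fin 3) (c : ℝ) : Continuous (rf i c) := by
  unfold rf
  fun_prop

lemma rf_dist (i : Fin 3) (c : ℝ) (x y : E3) : dist (rf i c x) (rf i c y) = dist x y := by
  unfold rf
  rw [dist_add_right, LinearIsometryEquiv.dist_map]

lemma rf_emb (i : Fin 3) (c : ℝ) : MeasurableEmbedding (rf i c) :=
  ((Homeomorph.addRight (EuclideanSpace.single i c : E3)).measurableEmbedding).comp
    (flp i).toHomeomorph.measurableEmbedding

lemma V_rf (i : Fin 3) (c : ℝ) (ρ : E3 → ℝ) (x : E3) :
    V ρ (rf i c x) = V (fun y => ρ (rf i c y)) x := by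
  unfold V
  rw [← (rf_mp i c).integral_comp (rf_emb i c)]
  simp_rw [rf_dist]

/-- unconditional lower sets -/
def Unc (U : Set E3) : Prop := ∀ x ∈ U, ∀ y : E3, (∀ i, |y i| ≤ |x i|) → y ∈ U

theorem refl_ineq {U : Set E3} {R : ℝ} (hR : 0 < R) (hU : U ⊆ ball 0 R)
    (hunc : Unc U) {l : ℝ} {ρ : E3 → ℝ} (hρ : Adm U ρ)
    (h1 : ∀ᵐ x : E3, x ∈ U → V ρ x < l → ρ x = 1) (hle : ∀ x, V ρ x ≤ l)
    (i : Fin 3) {s t : ℝ} (hs : s = 1 ∨ s = -1) (ht : 0 ≤ t) (x : E3) (hx : t ≤ s * x i) :
    V ρ x ≤ V ρ (rf i (2 * s * t) x) := by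
  set c := 2 * s * t with hc
  have hs2 : s * s = 1 := by rcases hs with rfl | rfl <;> norm_num
  have hρg := hρ.good hU
  set R' := R + |c| with hR'
  have hR'0 : 0 < R' := by positivity
  have hbb : ball (0 : E3) R ⊆ ball 0 R' := ball_subset_ball (by linarith [abs_nonneg c])
  have hρg' := hρ.good (hU.trans hbb)
  have hrefg : Good R' (fun y => ρ (rf i c y)) := by
    refine ⟨hρ.meas.comp (rf_cont i c).measurable, fun y => ?_⟩
    rw [abs_of_nonneg (hρ.nonneg _)]
    by_cases hy : rf i c y ∈ U
    · have h2 : y ∈ ball (0 : E3) R' := by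
        have h3 := hU hy
        rw [mem_ball_zero_iff] at h3 ⊢
        have h4 : ‖flp i y‖ = ‖y‖ := (flp i).norm_map y
        have h5 : flp i y = rf i c y - EuclideanSpace.single i c := by unfold rf; simp
        have h6 : ‖(EuclideanSpace.single i c : E3)‖ = |c| := by simp
        rw [← h4, h5]
        refine (norm_sub_le _ _).trans_lt ?_
        rw [h6]
        linarith
      rw [indicator_of_mem h2]
      exact hρ.le_one _
    · rw [hρ.zero hy]
      exact indicator_nonneg (fun _ _ => zero_le_one) _
  set τ : E3 → ℝ := fun y => 1 * ρ y + (-1) * ρ (rf i c y) with hτ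
  have hτg : Good R' τ := by
    refine ⟨(hρ.meas.const_mul _).add (hrefg.meas.const_mul _), fun y => ?_⟩
    have b1 := hρg'.bd y
    have b2 := hrefg.bd y
    have b3 : 0 ≤ ρ y := hρ.nonneg y
    have b4 : 0 ≤ ρ (rf i c y) := hρ.nonneg _
    rw [abs_of_nonneg b3] at b1
    rw [abs_of_nonneg b4] at b2
    simp only [hτ]
    rw [abs_le]
    constructor <;> linarith
  have hVτ : ∀ y, V τ y = V ρ y - V ρ (rf i c y) := by
    intro y
    rw [hτ, V_add_smul hR'0 hρg' hrefg, V_rf]
    ring
  have hmp : V τ x ≤ 0 := by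
    apply max_principle hR'0 hτg (H := {x : E3 | t ≤ s * x i})
    · exact isClosed_le continuous_const (by fun_prop)
    · intro y hy
      have h2 : t = s * y i := frontier_le_subset_eq (f := fun _ : E3 => t)
        (g := fun x : E3 => s * x i) continuous_const (by fun_prop) hy
      have h3 : rf i c y = y := by
        ext j
        rw [rf_apply]
        split_ifs with hj
        · rw [hj, hc, h2]
          have : 2 * s * (s * y i) = 2 * (s * s) * y i := by ring
          rw [this, hs2]; ring
        · rfl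
      rw [hVτ, h3, sub_self]
    · intro y hy hpos
      have hopen : IsOpen (interior {x : E3 | t ≤ s * x i} ∩ {y | 0 < V τ y}) :=
        isOpen_interior.inter (isOpen_lt continuous_const (hτg.V_cont hR'0))
      obtain ⟨r, hr, hb⟩ := Metric.isOpen_iff.1 hopen y ⟨hy, hpos⟩
      refine ⟨r, hr, ?_⟩
      have h2 : ∀ᵐ z : E3, rf i c z ∈ U → V ρ (rf i c z) < l → ρ (rf i c z) = 1 :=
        (rf_mp i c).quasiMeasurePreserving.ae h1
      filter_upwards [h2] with z hz hzb
      obtain ⟨hz1, hz2⟩ := hb hzb
      have hz3 : t ≤ s * z i := interior_subset (s := {x : E3 | t ≤ s * x i}) hz1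
      have hz4 : 0 < V τ z := hz2
      rw [hVτ] at hz4
      have hz5 : V ρ (rf i c z) < l := by linarith [hle z]
      simp only [hτ]
      by_cases hzU : z ∈ U
      · have h3 : rf i c z ∈ U := by
          apply hunc z hzU
          intro j
          rw [rf_apply]
          split_ifs with hj
          · rw [hj]
            have e1 : |z i| = s * z i := by
              have h0 : 0 ≤ s * z i := ht.trans hz3
              rcases hs with hs1 | hs1
              · rw [hs1] at h0 ⊢; rw [one_mul] at h0 ⊢; exact abs_of_nonneg h0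
              · rw [hs1] at h0 ⊢
                rw [abs_of_nonpos (by linarith)]; ring
            have e2 : |c - z i| = |2 * t - s * z i| := by
              have h5 : 2 * t - s * z i = s * (c - z i) := by
                rw [hc]
                have : s * (2 * s * t - z i) = 2 * (s * s) * t - s * z i := by ring
                rw [this, hs2]; ring
              rw [h5, abs_mul]
              have : |s| = 1 := by rcases hs with rfl | rfl <;> simp
              rw [this, one_mul]
            rw [e1, e2, abs_le]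
            constructor <;> linarith
          · exact le_rfl
        rw [hz h3 hz5]
        linarith [hρ.le_one z]
      · rw [hρ.zero hzU]
        linarith [hρ.nonneg (rf i c z)]
    · exact hx
  rw [hVτ] at hmp
  linarith

lemma mono_coord {U : Set E3} {R : ℝ} (hR : 0 < R) (hU : U ⊆ ball 0 R)
    (hunc : Unc U) {l : ℝ} {ρ : E3 → ℝ} (hρ : Adm U ρ)
    (h1 : ∀ᵐ x : E3, x ∈ U → V ρ x < l → ρ x = 1) (hle : ∀ x, V ρ x ≤ l)
    (i : Fin 3) {x y : E3} (hxy : ∀ j, j ≠ i → x j = y j) (hi : |y i| ≤ |x i|) :
    V ρ x ≤ V ρ y := by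
  rcases le_total 0 (x i) with h0 | h0
  · rw [abs_of_nonneg h0, abs_le] at hi
    have h2 := refl_ineq hR hU hunc hρ h1 hle i (s := 1) (t := (x i + y i) / 2) (Or.inl rfl)
      (by linarith) x (by linarith)
    have h3 : rf i (2 * 1 * ((x i + y i) / 2)) x = y := by
      ext j
      rw [rf_apply]
      split_ifs with hj
      · rw [hj]; ring
      · exact hxy j hj
    rwa [h3] at h2
  · rw [abs_of_nonpos h0, abs_le] at hi
    have h2 := refl_ineq hR hU hunc hρ h1 hle i (s := -1) (t := -(x i + y i) / 2) (Or.inr rfl)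
      (by linarith) x (by linarith)
    have h3 : rf i (2 * (-1) * (-(x i + y i) / 2)) x = y := by
      ext j
      rw [rf_apply]
      split_ifs with hj
      · rw [hj]; ring
      · exact hxy j hj
    rwa [h3] at h2

theorem V_anti {U : Set E3} {R : ℝ} (hR : 0 < R) (hU : U ⊆ ball 0 R)
    (hunc : Unc U) {l : ℝ} {ρ : E3 → ℝ} (hρ : Adm U ρ)
    (h1 : ∀ᵐ x : E3, x ∈ U → V ρ x < l → ρ x = 1) (hle : ∀ x, V ρ x ≤ l)
    {x y : E3} (hxy : ∀ i, |y i| ≤ |x i|) : V ρ x ≤ V ρ y := by
  set a : E3 := !₂[y 0, x 1, x 2] with ha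
  set b : E3 := !₂[y 0, y 1, x 2] with hb
  have s1 : V ρ x ≤ V ρ a := by
    apply mono_coord hR hU hunc hρ h1 hle 0
    · intro j hj
      fin_cases j
      · exact absurd rfl hj
      · simp [ha]
      · simp [ha]
    · simpa [ha] using hxy 0
  have s2 : V ρ a ≤ V ρ b := by
    apply mono_coord hR hU hunc hρ h1 hle 1
    · intro j hj
      fin_cases j
      · simp [ha, hb]
      · exact absurd rfl hj
      · simp [ha, hb]
    · simpa [ha, hb] using hxy 1
  have s3 : V ρ b ≤ V ρ y := by
    apply mono_coord hR hU hunc hρ h1 hle 2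
    · intro j hj
      fin_cases j
      · simp [hb]
      · simp [hb]
      · exact absurd rfl hj
    · simpa [hb] using hxy 2
  exact s1.trans (s2.trans s3)

/-- potentials of complementary densities do not exceed the level -/
theorem V_le_level {U : Set E3} {R : ℝ} (hR : 0 < R) (hU : U ⊆ ball 0 R)
    {l : ℝ} (hl : 0 < l) {ρ : E3 → ℝ} (hρ : Adm U ρ)
    (h2 : ∀ᵐ x : E3, l < V ρ x → ρ x = 0) : ∀ x, V ρ x ≤ l := by
  have hρg := hρ.good hU
  have hcont := hρg.V_cont hR
  by_contra hcon
  push Not at hcon
  obtain ⟨x1, hx1⟩ := hcon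
  -- maximum principle applied on a superlevel set
  have hcomp : IsCompact {x | V ρ x1 ≤ V ρ x} := hρg.compact_ge hR (hl.trans hx1)
  obtain ⟨x0, hx0, hmax⟩ := hcomp.exists_isMaxOn ⟨x1, (le_refl (V ρ x1) : V ρ x1 ≤ V ρ x1)⟩
    hcont.continuousOn
  set M := V ρ x0 with hM
  have hMl : l < M := lt_of_lt_of_le hx1 hx0
  have hM0 : 0 < M := hl.trans hMl
  have hmax' : ∀ x, V ρ x ≤ M := by
    intro x
    rcases le_total (V ρ x1) (V ρ x) with h1 | h1
    · exact hmax h1
    · exact h1.trans hx0
  set K : Set E3 := {x | M ≤ V ρ x} with hK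
  have hKcl : IsClosed K := isClosed_le continuous_const hcont
  have hKop : IsOpen K := by
    rw [isOpen_iff_mem_nhds]
    intro x hx
    have hxM : V ρ x = M := le_antisymm (hmax' x) hx
    have hop : IsOpen {y | l < V ρ y} := isOpen_lt continuous_const hcont
    obtain ⟨r, hr0, hb⟩ := Metric.isOpen_iff.1 hop x (show l < V ρ x by rw [hxM]; exact hMl)
    have h1 := hρg.mean_diff hR hr0 x
    have h3 : ∫ y, ρ y * kr r (dist x y) = 0 := by
      apply integral_eq_zero_of_ae
      filter_upwards [h2] with y hy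
      by_cases hyr : dist x y < r
      · have h3 : y ∈ ball x r := by rw [mem_ball, dist_comm]; exact hyr
        simp [hy (hb h3)]
      · simp [kr_zero hr0 (not_lt.1 hyr)]
    have hv := vb_pos hr0
    have h3 : ∫ z in ball x r, V ρ z = M * vb r := by
      rw [h3, hxM] at h1
      have : M = (∫ z in ball x r, V ρ z) / vb r := by linarith
      rwa [eq_div_iff hv.ne', eq_comm] at this
    have hvr : volume.real (ball x r) = vb r := by
      rw [measureReal_def, vol_ball hr0, ENNReal.toReal_ofReal hv.le]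
    have hfin : volume (ball x r) ≠ ⊤ := measure_ball_lt_top.ne
    have hVi : IntegrableOn (V ρ) (ball x r) := by
      refine Measure.integrableOn_of_bounded (M := 2 * Real.pi * R ^ 2) hfin hcont.aestronglyMeasurable ?_
      exact ae_of_all _ fun y => V_bound hR hρg y
    have hMi : Integrable (fun _ : E3 => M) (volume.restrict (ball x r)) := integrableOn_const hfin
    have h4 : ∫ z in ball x r, (M - V ρ z) = 0 := by
      rw [integral_sub hMi hVi, setIntegral_const, hvr, smul_eq_mul, h3]
      ring
    rw [setIntegral_eq_zero_iff_of_nonneg_ae] at h4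
    · have h5 : EqOn (fun z => M - V ρ z) (fun _ => 0) (ball x r) :=
        MeasureTheory.Measure.eqOn_open_of_ae_eq h4 isOpen_ball
          (continuous_const.sub hcont).continuousOn continuousOn_const
      rw [_root_.mem_nhds_iff]
      refine ⟨ball x r, fun z hz => ?_, isOpen_ball, mem_ball_self hr0⟩
      have := h5 hz
      simp only at this
      show M ≤ V ρ z
      linarith
    · rw [EventuallyLE, ae_restrict_iff' measurableSet_ball]
      refine ae_of_all _ fun z hz => ?_
      simp only [Pi.zero_apply]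
      linarith [hmax' z]
    · exact hMi.sub hVi
  have huniv : K = univ := by
    have : IsClopen K := ⟨hKcl, hKop⟩
    rcases isClopen_iff.1 this with h1 | h1
    · exfalso
      have : x0 ∈ K := (le_refl M : M ≤ V ρ x0)
      rw [h1] at this
      exact this
    · exact h1
  obtain ⟨r, hr⟩ := hρg.V_small hR hM0
  obtain ⟨z, hz⟩ : ∃ z : E3, ‖z‖ = |r| := ⟨EuclideanSpace.single 0 |r|, by simp⟩
  have h6 := hr z (by rw [hz]; exact le_abs_self r)
  have h7 : z ∈ K := by rw [huniv]; trivial
  have h8 : M ≤ V ρ z := h7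
  linarith [le_abs_self (V ρ z)]

end Pool.Agent.X153.Hol
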