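import Pool.Agent.H283R3.Newt3

set_option autoImplicit false
open MeasureTheory Filter Topology Set Metric
open scoped ENNReal

namespace Pool.Agent.X153.Hol
open Pool.Agent.H283R3.Newt

/-- admissible densities: measurable, between `0` and the indicator of `U` -/
structure Adm (U : Set E3) (ρ : E3 → ℝ) : Prop where
  meas : Measurable ρ
  nonneg : ∀ y, 0 ≤ ρ y
  le : ∀ y, ρ y ≤ U.indicator 1 y

lemma Adm.zero {U : Set E3} {ρ : E3 → ℝ} (h : Adm U ρ) {y : E3} (hy : y ∉ U) : ρ y = 0 := by
  have := h.le y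
  rw [indicator_of_notMem hy] at this
  exact le_antisymm this (h.nonneg y)

lemma Adm.le_one {U : Set E3} {ρ : E3 → ℝ} (h : Adm U ρ) (y : E3) : ρ y ≤ 1 := by
  refine (h.le y).trans ?_
  unfold indicator
  split_ifs <;> simp

lemma Adm.good {U : Set E3} {R : ℝ} (hU : U ⊆ ball 0 R) {ρ : E3 → ℝ} (h : Adm U ρ) :
    Good R ρ := by
  refine ⟨h.meas, fun y => ?_⟩
  rw [abs_of_nonneg (h.nonneg y)]
  by_cases hy : y ∈ U
  · rw [indicator_of_mem (hU hy)]
    exact h.le_one y
  · rw [h.zero hy]
    exact indicator_nonneg (fun _ _ => zero_le_one) _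

/-- weak sequential compactness of the admissible densities -/
theorem exists_subseq {U : Set E3} {R : ℝ} (hUm : MeasurableSet U) (hU : U ⊆ ball 0 R)
    {u : ℕ → E3 → ℝ} (hu : ∀ k, Adm U (u k)) :
    ∃ σ : ℕ → ℕ, StrictMono σ ∧ ∃ ρ : E3 → ℝ, Adm U ρ ∧
      ∀ h : E3 → ℝ, Measurable h → (∃ C, ∀ x, |h x| ≤ C) →
        Tendsto (fun k => ∫ x, u (σ k) x * h x) atTop (𝓝 (∫ x, ρ x * h x)) := by
  haveI hfin : IsFiniteMeasure (volume.restrict U) :=
    ⟨by rw [Measure.restrict_apply_univ]; exact (measure_mono hU).trans_lt measure_ball_lt_top⟩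
  set μ : Measure E3 := volume.restrict U with hμ
  haveI hf2 : Fact ((2:ENNReal) ≠ ⊤) := ⟨by norm_num⟩
  haveI hsep : SecondCountableTopology (Lp ℝ 2 μ) := Lp.SecondCountableTopology
  have hmem : ∀ k, MemLp (u k) 2 μ := fun k =>
    MemLp.of_bound (hu k).meas.aestronglyMeasurable 1 (Eventually.of_forall fun x => by
      rw [Real.norm_eq_abs, abs_of_nonneg ((hu k).nonneg x)]; exact (hu k).le_one x)
  set y : ℕ → Lp ℝ 2 μ := fun k => (hmem k).toLp (u k) with hy
  have hbm : ∀ h : E3 → ℝ, Measurable h → (∃ C, ∀ x, |h x| ≤ C) → MemLp h 2 μ := by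
    intro h hh ⟨C, hC⟩
    exact MemLp.of_bound hh.aestronglyMeasurable C (Eventually.of_forall fun x => hC x)
  have hin : ∀ (k : ℕ) (h : E3 → ℝ) (hh : MemLp h 2 μ), inner ℝ (y k) (hh.toLp h) =
      ∫ x, u k x * h x ∂μ := by
    intro k h hh
    rw [MeasureTheory.L2.inner_def]
    refine integral_congr_ae ?_
    filter_upwards [(hmem k).coeFn_toLp, hh.coeFn_toLp] with x h1 h2
    rw [h1, h2]
    simp [mul_comm]
  obtain ⟨C, hC⟩ : ∃ C : ℝ, ∀ k, ‖y k‖ ≤ C := by
    refine ⟨_, fun k => Lp.norm_le_of_ae_bound (C := 1) zero_le_one ?_⟩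
    filter_upwards [(hmem k).coeFn_toLp] with x hx
    rw [hx, Real.norm_eq_abs, abs_of_nonneg ((hu k).nonneg x)]
    exact (hu k).le_one x
  have hsc := WeakDual.isSeqCompact_closedBall ℝ (Lp ℝ 2 μ) 0 C
  set D : ℕ → WeakDual ℝ (Lp ℝ 2 μ) := fun k =>
    StrongDual.toWeakDual (InnerProductSpace.toDual ℝ _ (y k)) with hD
  have hmem2 : ∀ k, D k ∈ (WeakDual.toStrongDual ⁻¹'
      Metric.closedBall (0 : StrongDual ℝ (Lp ℝ 2 μ)) C) := by
    intro k
    rw [mem_preimage, Metric.mem_closedBall, dist_zero_right]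
    have : ‖InnerProductSpace.toDual ℝ (Lp ℝ 2 μ) (y k)‖ = ‖y k‖ :=
      (InnerProductSpace.toDual ℝ _).norm_map _
    calc _ = ‖InnerProductSpace.toDual ℝ (Lp ℝ 2 μ) (y k)‖ := rfl
      _ ≤ _ := by rw [this]; exact hC k
  obtain ⟨a, ha, σ, hσ, hlim⟩ := hsc hmem2
  set w : Lp ℝ 2 μ := (InnerProductSpace.toDual ℝ _).symm (WeakDual.toStrongDual a) with hw
  have hwm : Measurable (w : E3 → ℝ) := (Lp.stronglyMeasurable w).measurable
  have hwi : Integrable (w : E3 → ℝ) μ := (Lp.memLp w).integrable (by norm_num)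
  have key : ∀ h : E3 → ℝ, Measurable h → (∃ C, ∀ x, |h x| ≤ C) →
      Tendsto (fun k => ∫ x, u (σ k) x * h x ∂μ) atTop (𝓝 (∫ x, w x * h x ∂μ)) := by
    intro h hm hb
    have hh := hbm h hm hb
    have h1 : Tendsto (fun k => (D (σ k)) (hh.toLp h)) atTop (𝓝 (a (hh.toLp h))) := by
      have := (WeakDual.eval_continuous (hh.toLp h)).tendsto a
      exact this.comp hlim
    have h2 : ∀ k, (D (σ k)) (hh.toLp h) = ∫ x, u (σ k) x * h x ∂μ := by
      intro k
      rw [← hin (σ k) h hh]
      rfl
    have h3 : a (hh.toLp h) = ∫ x, w x * h x ∂μ := by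
      have e1 : a (hh.toLp h) = inner ℝ w (hh.toLp h) := by
        rw [hw, InnerProductSpace.toDual_symm_apply]
        rfl
      rw [e1, MeasureTheory.L2.inner_def]
      refine integral_congr_ae ?_
      filter_upwards [hh.coeFn_toLp] with x h2
      rw [h2]
      simp [mul_comm]
    simp_rw [h2] at h1
    rw [h3] at h1
    exact h1
  -- bounds
  have hlow : ∀ᵐ x ∂μ, 0 ≤ w x := by
    set A : Set E3 := {x | w x < 0} with hA
    have hAm : MeasurableSet A := measurableSet_lt hwm measurable_const
    have h1 := key (A.indicator fun _ => 1) (measurable_const.indicator hAm)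
      ⟨1, fun x => by by_cases hx : x ∈ A <;> simp [hx]⟩
    have h2 : 0 ≤ ∫ x, w x * A.indicator (fun _ => 1) x ∂μ := by
      refine ge_of_tendsto' h1 fun k => integral_nonneg fun x => ?_
      exact mul_nonneg ((hu _).nonneg x) (indicator_nonneg (fun _ _ => zero_le_one) _)
    have h3 : ∀ x, w x * A.indicator (fun _ => 1) x ≤ 0 := by
      intro x
      by_cases hx : x ∈ A
      · rw [indicator_of_mem hx, mul_one]; exact le_of_lt hx
      · simp [hx]
    have h4 : ∫ x, -(w x * A.indicator (fun _ => 1) x) ∂μ = 0 := by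
      rw [integral_neg]
      have := integral_nonpos (μ := μ) (f := fun x => w x * A.indicator (fun _ => 1) x) h3
      linarith
    have h5 : Integrable (fun x => -(w x * A.indicator (fun _ => 1) x)) μ := by
      apply Integrable.neg
      apply hwi.mul_bdd (c := 1)
      · exact (measurable_const.indicator hAm).aestronglyMeasurable
      · exact ae_of_all _ fun x => by by_cases hx : x ∈ A <;> simp [hx]
    rw [integral_eq_zero_iff_of_nonneg (fun x => neg_nonneg.2 (h3 x)) h5] at h4
    filter_upwards [h4] with x hx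
    by_contra hc
    push Not at hc
    have hxA : x ∈ A := hc
    simp only [indicator_of_mem hxA, mul_one, Pi.zero_apply] at hx
    linarith
  have hupp : ∀ᵐ x ∂μ, w x ≤ 1 := by
    set A : Set E3 := {x | 1 < w x} with hA
    have hAm : MeasurableSet A := measurableSet_lt measurable_const hwm
    have h1 := key (A.indicator fun _ => 1) (measurable_const.indicator hAm)
      ⟨1, fun x => by by_cases hx : x ∈ A <;> simp [hx]⟩
    have hAi : Integrable (fun x => A.indicator (fun _ => (1:ℝ)) x) μ :=
      (integrable_const (1:ℝ)).indicator hAm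
    have h2 : ∫ x, w x * A.indicator (fun _ => 1) x ∂μ ≤ ∫ x, A.indicator (fun _ => (1:ℝ)) x ∂μ := by
      refine le_of_tendsto' h1 fun k => ?_
      apply integral_mono_of_nonneg
      · exact ae_of_all _ fun x => mul_nonneg ((hu _).nonneg x) (indicator_nonneg (fun _ _ => zero_le_one) _)
      · exact hAi
      · refine ae_of_all _ fun x => ?_
        have := (hu (σ k)).le_one x
        have h3 : 0 ≤ A.indicator (fun _ => (1:ℝ)) x := indicator_nonneg (fun _ _ => zero_le_one) _
        show u (σ k) x * A.indicator (fun _ => (1:ℝ)) x ≤ A.indicator (fun _ => (1:ℝ)) x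
        nlinarith
    have h5 : Integrable (fun x => w x * A.indicator (fun _ => 1) x) μ := by
      apply hwi.mul_bdd (c := 1)
      · exact (measurable_const.indicator hAm).aestronglyMeasurable
      · exact ae_of_all _ fun x => by by_cases hx : x ∈ A <;> simp [hx]
    have h3 : ∀ x, 0 ≤ w x * A.indicator (fun _ => 1) x - A.indicator (fun _ => (1:ℝ)) x := by
      intro x
      by_cases hx : x ∈ A
      · rw [indicator_of_mem hx, mul_one]
        have : 1 < w x := hx
        linarith
      · simp [hx]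
    have h4 : ∫ x, (w x * A.indicator (fun _ => 1) x - A.indicator (fun _ => (1:ℝ)) x) ∂μ = 0 := by
      apply le_antisymm
      · rw [integral_sub h5 hAi]; linarith
      · exact integral_nonneg h3
    rw [integral_eq_zero_iff_of_nonneg h3 (h5.sub hAi)] at h4
    filter_upwards [h4] with x hx
    by_contra hc
    push Not at hc
    have hxA : x ∈ A := hc
    simp only [indicator_of_mem hxA, mul_one, Pi.zero_apply] at hx
    linarith
  refine ⟨σ, hσ, U.indicator fun x => max 0 (min (w x) 1), ⟨?_, ?_, ?_⟩, ?_⟩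
  · exact (measurable_const.max (hwm.min measurable_const)).indicator hUm
  · intro x
    exact indicator_nonneg (fun _ _ => le_max_left _ _) _
  · intro x
    by_cases hx : x ∈ U
    · rw [indicator_of_mem hx, indicator_of_mem hx]
      exact max_le zero_le_one (min_le_right _ _)
    · rw [indicator_of_notMem hx, indicator_of_notMem hx]
  · intro h hm hb
    have h1 := key h hm hb
    have h2 : ∀ k, ∫ x, u (σ k) x * h x ∂μ = ∫ x, u (σ k) x * h x := by
      intro k
      rw [hμ]
      apply setIntegral_eq_integral_of_forall_compl_eq_zero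
      intro x hx
      rw [(hu _).zero hx, zero_mul]
    have h3 : ∫ x, w x * h x ∂μ = ∫ x, U.indicator (fun x => max 0 (min (w x) 1)) x * h x := by
      rw [← setIntegral_eq_integral_of_forall_compl_eq_zero (s := U) (μ := volume)
        (f := fun x => U.indicator (fun x => max 0 (min (w x) 1)) x * h x)]
      · apply integral_congr_ae
        have hmemU : ∀ᵐ x ∂μ, x ∈ U := ae_restrict_mem hUm
        filter_upwards [hlow, hupp, hmemU] with x h1 h2 h3
        rw [indicator_of_mem h3, min_eq_left h2, max_eq_right h1]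
      · intro x hx
        rw [indicator_of_notMem hx, zero_mul]
    simp_rw [h2] at h1
    rw [h3] at h1
    exact h1

end Pool.Agent.X153.Hol
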